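import Pool.Agent.R737.PK.Stm

/-!
# Real rooted polynomials split
-/

set_option autoImplicit false

open Polynomial

namespace Pool.Agent.R737.PK

/-- a nonzero real rooted polynomial is a constant times a product of linear factors -/
theorem rr_split : ∀ (n : ℕ) (p : ℝ[X]), p.natDegree = n → p ≠ 0 → RealRooted p →
    ∃ (a : ℝ) (R : Multiset ℝ), p = C a * (R.map (fun r => X - C r)).prod := by
  intro n
  induction n with
  | zero =>
    intro p hp _ _
    refine ⟨p.coeff 0, 0, ?_⟩
    simpa using Polynomial.eq_C_of_natDegree_eq_zero hp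
  | succ n ih =>
    intro p hp h0 hr
    obtain ⟨z, hz⟩ : ∃ z : ℂ, aeval z p = 0 := by
      have hdeg : (p.map (algebraMap ℝ ℂ)).degree ≠ 0 := by
        rw [Polynomial.degree_map, Polynomial.degree_eq_natDegree h0, hp]
        exact_mod_cast Nat.succ_ne_zero n
      obtain ⟨z, hz⟩ := IsAlgClosed.exists_root _ hdeg
      refine ⟨z, ?_⟩
      rwa [Polynomial.IsRoot.def, Polynomial.eval_map, ← Polynomial.aeval_def] at hz
    have him := hr z hz
    have hzr : z = ((z.re : ℝ) : ℂ) := by
      apply Complex.ext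
      · simp
      · simpa using him
    have hroot : p.eval z.re = 0 := by
      rw [hzr] at hz
      have h2 := Polynomial.aeval_algebraMap_apply ℂ z.re p
      rw [Complex.coe_algebraMap] at h2
      rw [h2] at hz
      have h3 : ((aeval z.re p : ℝ) : ℂ) = ((0 : ℝ) : ℂ) := by simpa using hz
      have h4 := Complex.ofReal_injective h3
      simpa [Polynomial.aeval_def] using h4
    obtain ⟨q, hq⟩ := Polynomial.dvd_iff_isRoot.mpr hroot
    have hq0 : q ≠ 0 := by
      rintro rfl
      exact h0 (by simpa using hq)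
    have hqd : q.natDegree = n := by
      have h5 := congrArg Polynomial.natDegree hq
      rw [Polynomial.natDegree_mul (Polynomial.X_sub_C_ne_zero _) hq0,
        Polynomial.natDegree_X_sub_C, hp] at h5
      omega
    have hqr : RealRooted q := by
      intro w hw
      apply hr w
      rw [hq, map_mul, hw, mul_zero]
    obtain ⟨a, R, haR⟩ := ih q hqd hq0 hqr
    refine ⟨a, z.re ::ₘ R, ?_⟩
    rw [Multiset.map_cons, Multiset.prod_cons, hq]
    nth_rw 1 [haR]
    ring

/-- evaluation of a product of linear factors -/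
theorem eval_lin (R : Multiset ℝ) (x : ℝ) :
    ((R.map (fun r => X - C r)).prod : ℝ[X]).eval x = (R.map (fun r => x - r)).prod := by
  induction R using Multiset.induction_on with
  | empty => simp
  | cons r R ih => simp [ih]

/-- a real rooted polynomial with the known roots `T` split off -/
theorem rr_split_off (p : ℝ[X]) (T : Finset ℝ) (h0 : p ≠ 0) (hr : RealRooted p)
    (hT : ∀ a ∈ T, p.eval a = 0) :
    ∃ (a : ℝ) (R : Multiset ℝ), p = C a * ((T.val + R).map (fun r => X - C r)).prod := by
  obtain ⟨a, R, hR⟩ := rr_split p.natDegree p rfl h0 hr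
  have ha : a ≠ 0 := by
    rintro rfl
    exact h0 (by rw [hR]; simp)
  have hle : T.val ≤ R := by
    rw [Multiset.le_iff_subset T.nodup]
    intro t ht
    have h1 := hT t ht
    rw [hR, Polynomial.eval_mul, Polynomial.eval_C, eval_lin] at h1
    have h2 := (mul_eq_zero.mp h1).resolve_left ha
    rw [Multiset.prod_eq_zero_iff] at h2
    obtain ⟨r, hr1, hr2⟩ := Multiset.mem_map.mp h2
    have h3 : r = t := by linarith
    rwa [← h3]
  obtain ⟨R', hR'⟩ := Multiset.le_iff_exists_add.mp hle
  exact ⟨a, R', by rw [← hR']; exact hR⟩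

/-- the value after dividing by the known factors -/
theorem rr_quot (p : ℝ[X]) (T : Finset ℝ) (a : ℝ) (R : Multiset ℝ)
    (h : p = C a * ((T.val + R).map (fun r => X - C r)).prod) (x : ℝ) (hx : x ∉ T) :
    |p.eval x| / ∏ t ∈ T, |x - t| = |a| * (R.map (fun r => |x - r|)).prod := by
  have hne : ∏ t ∈ T, |x - t| ≠ 0 := by
    rw [Finset.prod_ne_zero_iff]
    intro t ht
    rw [abs_ne_zero, sub_ne_zero]
    rintro rfl
    exact hx ht
  rw [div_eq_iff hne, h, Polynomial.eval_mul, Polynomial.eval_C, eval_lin, Multiset.map_add,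
    Multiset.prod_add, abs_mul, abs_mul]
  have h1 : ∀ S : Multiset ℝ, |(S.map (fun r => x - r)).prod| = (S.map (fun r => |x - r|)).prod := by
    intro S
    induction S using Multiset.induction_on with
    | empty => simp
    | cons r S ih => simp [abs_mul, ih]
  rw [h1, h1]
  have h2 : (T.val.map (fun r => |x - r|)).prod = ∏ t ∈ T, |x - t| := rfl
  rw [h2]
  ring

/-- products of nonnegative functions over a multiset are monotone -/
theorem multiset_prod_le (R : Multiset ℝ) (f g : ℝ → ℝ) (hf : ∀ r ∈ R, 0 ≤ f r)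
    (hfg : ∀ r ∈ R, f r ≤ g r) : (R.map f).prod ≤ (R.map g).prod := by
  induction R using Multiset.induction_on with
  | empty => simp
  | cons r R ih =>
    simp only [Multiset.map_cons, Multiset.prod_cons]
    have h1 := hf r (Multiset.mem_cons_self r R)
    have h2 := hfg r (Multiset.mem_cons_self r R)
    have h3 := ih (fun s hs => hf s (Multiset.mem_cons_of_mem hs))
      (fun s hs => hfg s (Multiset.mem_cons_of_mem hs))
    have h4 : 0 ≤ (R.map f).prod := by
      apply Multiset.prod_nonneg
      intro y hy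
      obtain ⟨s, hs, rfl⟩ := Multiset.mem_map.mp hy
      exact hf s (Multiset.mem_cons_of_mem hs)
    exact mul_le_mul h2 h3 h4 (h1.trans h2)

/-- a remaining root is a root -/
theorem rr_root (p : ℝ[X]) (T : Finset ℝ) (a : ℝ) (R : Multiset ℝ)
    (h : p = C a * ((T.val + R).map (fun r => X - C r)).prod) (r : ℝ) (hr : r ∈ R) :
    p.eval r = 0 := by
  rw [h, Polynomial.eval_mul, Polynomial.eval_C, eval_lin]
  have : (0 : ℝ) ∈ (T.val + R).map (fun s => r - s) := by
    rw [Multiset.mem_map]
    exact ⟨r, Multiset.mem_add.mpr (Or.inr hr), by ring⟩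
  rw [Multiset.prod_eq_zero this, mul_zero]

/-- a remaining root which is in `T` is a double root -/
theorem rr_double (p : ℝ[X]) (T : Finset ℝ) (a : ℝ) (R : Multiset ℝ)
    (h : p = C a * ((T.val + R).map (fun r => X - C r)).prod) (r : ℝ) (hr : r ∈ R)
    (hrT : r ∈ T) : (derivative p).eval r = 0 := by
  obtain ⟨R1, hR1⟩ := Multiset.exists_cons_of_mem hr
  obtain ⟨T1, hT1⟩ := Multiset.exists_cons_of_mem (show r ∈ T.val from hrT)
  have h1 : p = (X - C r) * ((X - C r) * (C a * ((T1 + R1).map (fun r => X - C r)).prod)) := by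
    rw [h, hR1, hT1]
    simp only [Multiset.map_add, Multiset.map_cons, Multiset.prod_add, Multiset.prod_cons]
    ring
  rw [h1, Polynomial.derivative_mul, Polynomial.eval_add, Polynomial.eval_mul,
    Polynomial.eval_mul, Polynomial.eval_mul]
  simp

/-- PIECE RR2 -/
theorem stRR2 : StRR2 := by
  intro p n T h0 hr hT hTn hn
  obtain ⟨a, R, hp⟩ := rr_split_off p T h0 hr hT
  have hx1 : n - 1 ∉ T := by
    intro h
    rcases hTn _ h with h | h <;> linarith
  have hx2 : n + 1 ∉ T := by
    intro h
    rcases hTn _ h with h | h <;> linarith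
  have hx3 : n ∉ T := by
    intro h
    rcases hTn _ h with h | h <;> linarith
  rw [rr_quot p T a R hp _ hx1, rr_quot p T a R hp _ hx2, rr_quot p T a R hp _ hx3]
  have key : (R.map (fun r => |n - 1 - r|)).prod * (R.map (fun r => |n + 1 - r|)).prod ≤
      (R.map (fun r => |n - r|)).prod * (R.map (fun r => |n - r|)).prod := by
    rw [← Multiset.prod_map_mul, ← Multiset.prod_map_mul]
    apply multiset_prod_le
    · intro r _
      positivity
    · intro r hrR
      have h1 : p.eval r = 0 := rr_root p T a R hp r hrR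
      have h2 : r ≤ n - 1 ∨ n + 1 ≤ r := by
        by_contra hcon
        push Not at hcon
        exact hn r hcon.1 hcon.2 h1
      rw [← abs_mul, ← abs_mul]
      rcases h2 with h2 | h2
      · rw [abs_of_nonneg (by nlinarith : (0 : ℝ) ≤ (n - 1 - r) * (n + 1 - r)),
          abs_of_nonneg (by nlinarith : (0 : ℝ) ≤ (n - r) * (n - r))]
        nlinarith
      · rw [abs_of_nonneg (by nlinarith : (0 : ℝ) ≤ (n - 1 - r) * (n + 1 - r)),
          abs_of_nonneg (by nlinarith : (0 : ℝ) ≤ (n - r) * (n - r))]
        nlinarith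
  calc |a| * (R.map (fun r => |n - 1 - r|)).prod * (|a| * (R.map (fun r => |n + 1 - r|)).prod)
      = (|a| * |a|) * ((R.map (fun r => |n - 1 - r|)).prod * (R.map (fun r => |n + 1 - r|)).prod) := by
        ring
    _ ≤ (|a| * |a|) * ((R.map (fun r => |n - r|)).prod * (R.map (fun r => |n - r|)).prod) :=
        mul_le_mul_of_nonneg_left key (by positivity)
    _ = (|a| * (R.map (fun r => |n - r|)).prod) ^ 2 := by ring

/-- PIECE RR3 -/
theorem stRR3 : StRR3 := by
  intro p m k hk h0 hr hT hroots hder
  classical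
  set T : Finset ℝ := (Finset.range (k + 1)).image (fun i : ℕ => m - 2 * (i : ℝ)) with hTdef
  have hTr : ∀ b ∈ T, p.eval b = 0 := by
    intro b hb
    obtain ⟨i, hi, rfl⟩ := Finset.mem_image.mp hb
    exact hT i (by have := Finset.mem_range.mp hi; omega)
  obtain ⟨a, R, hp⟩ := rr_split_off p T h0 hr hTr
  have hinj : Set.InjOn (fun i : ℕ => m - 2 * (i : ℝ)) (Finset.range (k + 1)) := by
    intro i _ j _ hij
    have hij' : m - 2 * (i : ℝ) = m - 2 * (j : ℝ) := hij
    have : (i : ℝ) = j := by linarith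
    exact_mod_cast this
  -- the odd points are not in `T`
  have hodd : ∀ i : ℕ, m - 1 - 2 * (i : ℝ) ∉ T := by
    intro i hi
    obtain ⟨l, _, hl⟩ := Finset.mem_image.mp hi
    have hl' : m - 2 * (l : ℝ) = m - 1 - 2 * (i : ℝ) := hl
    have h1 : 2 * (l : ℝ) = 2 * (i : ℝ) + 1 := by linarith
    have h2 : 2 * l = 2 * i + 1 := by exact_mod_cast h1
    omega
  have hKK : ∀ i : ℕ, ∏ t ∈ T, |m - 1 - 2 * (i : ℝ) - t| = KK k i := by
    intro i
    rw [hTdef, Finset.prod_image hinj]
    unfold KK
    apply Finset.prod_congr rfl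
    intro l _
    congr 1
    ring
  have hq : ∀ (i : ℕ) (x : ℝ), x = m - 1 - 2 * (i : ℝ) →
      |p.eval x| / KK k i = |a| * (R.map (fun r => |x - r|)).prod := by
    intro i x hx
    rw [← hKK i, hx]
    exact rr_quot p T a R hp _ (hodd i)
  rw [hq 1 (m - 3) (by push_cast; ring), hq 3 (m - 7) (by push_cast; ring),
    hq 0 (m - 1) (by push_cast; ring), hq 2 (m - 5) (by push_cast; ring)]
  have hle : ∀ r ∈ R, r ≤ m - 7 := by
    intro r hrR
    by_contra hcon
    push Not at hcon
    obtain ⟨i, hi, hri⟩ := hroots r hcon (rr_root p T a R hp r hrR)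
    apply hder i hi
    rw [← hri]
    apply rr_double p T a R hp r hrR
    rw [hTdef, Finset.mem_image]
    exact ⟨i, Finset.mem_range.mpr (by omega), hri.symm⟩
  have key : (R.map (fun r => |m - 3 - r| ^ 3 * |m - 7 - r|)).prod ≤
      (R.map (fun r => |m - 1 - r| * |m - 5 - r| ^ 3)).prod := by
    apply multiset_prod_le
    · intro r _
      positivity
    · intro r hrR
      have h1 := hle r hrR
      rw [abs_of_nonneg (by linarith : (0 : ℝ) ≤ m - 3 - r),
        abs_of_nonneg (by linarith : (0 : ℝ) ≤ m - 7 - r),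
        abs_of_nonneg (by linarith : (0 : ℝ) ≤ m - 1 - r),
        abs_of_nonneg (by linarith : (0 : ℝ) ≤ m - 5 - r)]
      obtain ⟨u, hu⟩ : ∃ u : ℝ, u = m - 7 - r := ⟨_, rfl⟩
      have hu0 : 0 ≤ u := by rw [hu]; linarith
      have e1 : m - 3 - r = u + 4 := by rw [hu]; ring
      have e2 : m - 1 - r = u + 6 := by rw [hu]; ring
      have e3 : m - 5 - r = u + 2 := by rw [hu]; ring
      rw [e1, e2, e3, ← hu]
      nlinarith
  rw [Multiset.prod_map_mul, Multiset.prod_map_mul, Multiset.prod_map_pow,
    Multiset.prod_map_pow] at key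
  calc (|a| * (R.map (fun r => |m - 3 - r|)).prod) ^ 3 * (|a| * (R.map (fun r => |m - 7 - r|)).prod)
      = |a| ^ 4 * ((R.map (fun r => |m - 3 - r|)).prod ^ 3 * (R.map (fun r => |m - 7 - r|)).prod) := by
        ring
    _ ≤ |a| ^ 4 * ((R.map (fun r => |m - 1 - r|)).prod * (R.map (fun r => |m - 5 - r|)).prod ^ 3) :=
        mul_le_mul_of_nonneg_left key (by positivity)
    _ = |a| * (R.map (fun r => |m - 1 - r|)).prod * (|a| * (R.map (fun r => |m - 5 - r|)).prod) ^ 3 := by
        ring

end Pool.Agent.R737.PK
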